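import Pool.Agent.H360R2.RG.Stubs
import Pool.Agent.H520R2.LG.Ideal

/-! RG task IDEAL1 (helper862): the limit `B0 → ∞` for the simplest resonator. -/

open Complex Filter Topology Set MeasureTheory

namespace RGap

open SG (hh nn dd dl ord NZ)
open SP (RHs ZZ mu wt Mk Par Eb PS chi qq tt)
open LG (gK gh Zs bk lk fam prs nA yp ae EE Cn QT tm sm sm0 IsQ SF SM)

namespace I1

/-- partial sums of `e^{-1}` -/
noncomputable def e (n : ℕ) : ℝ := ∑ j ∈ Finset.range (n + 1), (-1 : ℝ) ^ j / (j.factorial : ℝ)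

noncomputable def R (N : ℕ) : ℝ := ∑ n ∈ Finset.range N, e n

def t1 (m : ℕ) : ℝ := if 2 ≤ m then 1 else 0

theorem e_zero : e 0 = 1 := by simp [e]

theorem e_one : e 1 = 0 := by simp [e, Finset.sum_range_succ]

theorem e_succ (n : ℕ) : e (n + 1) = e n + (-1 : ℝ) ^ (n + 1) / ((n + 1).factorial : ℝ) := by
  unfold e
  rw [Finset.sum_range_succ]

theorem e_rec (n : ℕ) : ((n : ℝ) + 2) * e (n + 2) = ((n : ℝ) + 1) * e (n + 1) + e n := by
  have h1 : e (n + 2) = e (n + 1) + (-1 : ℝ) ^ (n + 2) / ((n + 2).factorial : ℝ) := e_succ (n + 1)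
  have h2 := e_succ n
  have h3 : ((n + 2).factorial : ℝ) = ((n : ℝ) + 2) * ((n + 1).factorial : ℝ) := by
    rw [Nat.factorial_succ (n + 1)]
    push_cast
    ring
  have h4 : ((n + 1).factorial : ℝ) ≠ 0 := by positivity
  have h5 : ((n : ℝ) + 2) ≠ 0 := by positivity
  rw [h1, h3, mul_add]
  have h6 : ((n : ℝ) + 2) * ((-1 : ℝ) ^ (n + 2) / (((n : ℝ) + 2) * ((n + 1).factorial : ℝ))) =
      - ((-1 : ℝ) ^ (n + 1) / ((n + 1).factorial : ℝ)) := by
    field_simp
    ring
  rw [h6]
  linarith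

theorem e_bd (n : ℕ) : 0 ≤ e n ∧ e n ≤ 1 := by
  induction n using Nat.strong_induction_on with
  | _ n ih =>
    rcases n with _ | n
    · rw [e_zero]; norm_num
    · rcases n with _ | n
      · rw [e_one]; norm_num
      · have h1 := e_rec n
        obtain ⟨h2, h3⟩ := ih n (by omega)
        obtain ⟨h4, h5⟩ := ih (n + 1) (by omega)
        have h6 : (0 : ℝ) ≤ n := Nat.cast_nonneg n
        have h7 : e (n + 1 + 1) = e (n + 2) := rfl
        rw [h7]
        constructor
        · by_contra hcon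
          push Not at hcon
          nlinarith
        · by_contra hcon
          push Not at hcon
          nlinarith

theorem t1_sum (q : ℕ → ℝ) (n : ℕ) :
    ∑ m ∈ Finset.Icc 1 (n + 1), t1 m * q (n + 1 - m) = ∑ i ∈ Finset.range n, q i := by
  have h1 : ∑ m ∈ Finset.Icc 1 (n + 1), t1 m * q (n + 1 - m) =
      ∑ m ∈ Finset.Icc 2 (n + 1), q (n + 1 - m) := by
    symm
    refine Finset.sum_subset_zero_on_sdiff ?_ ?_ ?_
    · intro m hm
      rw [Finset.mem_Icc] at hm ⊢
      omega
    · intro m hm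
      rw [Finset.mem_sdiff, Finset.mem_Icc, Finset.mem_Icc] at hm
      have : ¬ 2 ≤ m := by omega
      simp [t1, this]
    · intro m hm
      rw [Finset.mem_Icc] at hm
      simp [t1, hm.1]
  rw [h1]
  refine Finset.sum_bij' (fun m _ => n + 1 - m) (fun i _ => n + 1 - i) ?_ ?_ ?_ ?_ ?_
  · intro m hm
    rw [Finset.mem_Icc] at hm
    rw [Finset.mem_range]
    omega
  · intro i hi
    rw [Finset.mem_range] at hi
    rw [Finset.mem_Icc]
    omega
  · intro m hm
    rw [Finset.mem_Icc] at hm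
    omega
  · intro i hi
    rw [Finset.mem_range] at hi
    omega
  · intro m _
    rfl

theorem e_sum (n : ℕ) : ((n : ℝ) + 1) * e (n + 1) = ∑ i ∈ Finset.range n, e i := by
  induction n with
  | zero => simp [e_one]
  | succ n ih =>
    rw [Finset.sum_range_succ, ← ih]
    have := e_rec n
    push_cast
    have h7 : e (n + 1 + 1) = e (n + 2) := rfl
    rw [h7]
    linarith

theorem q_eq {N : ℕ} {q : ℕ → ℝ} (hq : IsQ N t1 q) (n : ℕ) (hn : n ≤ N) : q n = e n := by
  induction n using Nat.strong_induction_on with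
  | _ n ih =>
    rcases n with _ | n
    · rw [hq.1, e_zero]
    · have h1 := hq.2 (n + 1) (by omega) hn
      rw [t1_sum q n] at h1
      have h2 : ∑ i ∈ Finset.range n, q i = ∑ i ∈ Finset.range n, e i := by
        refine Finset.sum_congr rfl (fun i hi => ?_)
        rw [Finset.mem_range] at hi
        exact ih i (by omega) (by omega)
      rw [h2, ← e_sum n] at h1
      push_cast at h1
      have h3 : ((n : ℝ) + 1) ≠ 0 := by positivity
      exact mul_left_cancel₀ h3 h1

theorem e_lim : Tendsto e atTop (𝓝 (Real.exp (-1))) := by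
  have h1 : HasSum (fun j : ℕ => (-1 : ℝ) ^ j / (j.factorial : ℝ)) (Real.exp (-1)) := by
    rw [Real.exp_eq_exp_ℝ]
    exact NormedSpace.expSeries_div_hasSum_exp (-1 : ℝ)
  have h2 := h1.tendsto_sum_nat
  exact h2.comp (tendsto_add_atTop_nat 1)

theorem R_lim : Tendsto (fun N : ℕ => R N / (N : ℝ)) atTop (𝓝 (Real.exp (-1))) := by
  have h1 := e_lim.cesaro
  refine h1.congr (fun N => ?_)
  unfold R
  rw [div_eq_inv_mul]

theorem R_mono {a b : ℕ} (h : a ≤ b) : R a ≤ R b := by
  unfold R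
  refine Finset.sum_le_sum_of_subset_of_nonneg (Finset.range_mono h) ?_
  intro i _ _
  exact (e_bd i).1

theorem R_nonneg (a : ℕ) : 0 ≤ R a := Finset.sum_nonneg (fun i _ => (e_bd i).1)

theorem R_pos (B : ℕ) : 0 < R (B + 1) := by
  have h1 : R 1 = 1 := by simp [R, e_zero]
  have h2 := R_mono (show 1 ≤ B + 1 by omega)
  linarith

/-- the integrand, extended continuously -/
noncomputable def G (c u : ℝ) : ℝ := Real.pi * c * Real.sinc (Real.pi * c * u)

theorem G_eq {c u : ℝ} (hc : 0 < c) (hu : u ≠ 0) : Real.sin (Real.pi * c * u) / u = G c u := by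
  unfold G
  have h1 : Real.pi * c * u ≠ 0 := by
    have := Real.pi_pos
    positivity
  rw [Real.sinc_of_ne_zero h1]
  have h2 : Real.pi * c ≠ 0 := by
    have := Real.pi_pos
    positivity
  field_simp

theorem G_cont (c : ℝ) : Continuous (G c) := by
  unfold G
  exact continuous_const.mul (Real.continuous_sinc.comp (continuous_const.mul continuous_id))

theorem G_bd {c : ℝ} (hc : 0 < c) (u : ℝ) : |G c u| ≤ Real.pi * c := by
  unfold G
  have h1 := Real.abs_sinc_le_one (Real.pi * c * u)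
  have h2 : 0 < Real.pi * c := mul_pos Real.pi_pos hc
  rw [abs_mul, abs_of_pos h2]
  nlinarith

theorem smI_eq {w c : ℝ} (hw : 0 < w) (hc : 0 < c) {m : ℕ} (hm : 1 ≤ m) :
    smI w c m = ∫ u in (m * w * Real.exp (-1 / m))..(m * w), G c u := by
  unfold smI
  refine intervalIntegral.integral_congr ?_
  intro u hu
  have hm0 : (0 : ℝ) < m := by exact_mod_cast hm
  have h1 : 0 < m * w * Real.exp (-1 / m) := by positivity
  have h2 : m * w * Real.exp (-1 / m) ≤ m * w := by
    have h3 : Real.exp (-1 / (m : ℝ)) ≤ 1 := by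
      rw [Real.exp_le_one_iff]
      exact div_nonpos_of_nonpos_of_nonneg (by norm_num) hm0.le
    have h4 : 0 < m * w := by positivity
    nlinarith
  rw [uIcc_of_le h2] at hu
  exact G_eq hc (by linarith [hu.1] : (0 : ℝ) < u).ne'

theorem smI_bd {w c : ℝ} (hw : 0 < w) (hc : 0 < c) {m : ℕ} (hm : 1 ≤ m) :
    |smI w c m| ≤ Real.pi * c * w := by
  rw [smI_eq hw hc hm]
  have hm0 : (0 : ℝ) < m := by exact_mod_cast hm
  have h1 := intervalIntegral.norm_integral_le_of_norm_le_const
    (a := m * w * Real.exp (-1 / m)) (b := m * w) (f := G c) (C := Real.pi * c)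
    (fun u _ => G_bd hc u)
  have h2 : Real.exp (-1 / (m : ℝ)) ≤ 1 := by
    rw [Real.exp_le_one_iff]
    exact div_nonpos_of_nonpos_of_nonneg (by norm_num) hm0.le
  have h3 : 1 - 1 / (m : ℝ) ≤ Real.exp (-1 / (m : ℝ)) := by
    have := Real.add_one_le_exp (-1 / (m : ℝ))
    have h4 : -1 / (m : ℝ) = -(1 / (m : ℝ)) := by ring
    linarith
  have h5 : |(m : ℝ) * w - m * w * Real.exp (-1 / m)| ≤ w := by
    have h6 : (0 : ℝ) < m * w := by positivity
    rw [abs_of_nonneg (by nlinarith)]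
    have h7 : (m : ℝ) * w * (1 - 1 / (m : ℝ)) ≤ m * w * Real.exp (-1 / m) :=
      mul_le_mul_of_nonneg_left h3 h6.le
    have h8 : (m : ℝ) * w * (1 - 1 / (m : ℝ)) = m * w - w := by
      field_simp
    linarith
  rw [Real.norm_eq_abs] at h1
  refine h1.trans ?_
  have h9 : 0 < Real.pi * c := mul_pos Real.pi_pos hc
  exact mul_le_mul_of_nonneg_left h5 h9.le

/-- primitive of `G` -/
noncomputable def Ph (c y : ℝ) : ℝ := ∫ u in (0 : ℝ)..y, G c u

theorem Ph_sub (c a b : ℝ) : ∫ u in a..b, G c u = Ph c b - Ph c a := by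
  unfold Ph
  rw [intervalIntegral.integral_interval_sub_left]
  · exact (G_cont c).intervalIntegrable _ _
  · exact (G_cont c).intervalIntegrable _ _

theorem Ph_strict (c u : ℝ) : HasStrictDerivAt (Ph c) (G c u) u :=
  (G_cont c).integral_hasStrictDerivAt 0 u

theorem exp_lim : Tendsto (fun m : ℕ => (m : ℝ) * (1 - Real.exp (-1 / (m : ℝ)))) atTop (𝓝 1) := by
  have h1 : HasDerivAt Real.exp 1 0 := by
    simpa using Real.hasDerivAt_exp 0
  have h2 := h1.tendsto_slope_zero
  have h3 : Tendsto (fun m : ℕ => -1 / (m : ℝ)) atTop (𝓝[≠] 0) := by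
    rw [tendsto_nhdsWithin_iff]
    constructor
    · exact tendsto_const_div_atTop_nhds_zero_nat (-1)
    · filter_upwards [eventually_ge_atTop 1] with m hm
      have : (m : ℝ) ≠ 0 := by
        have : (0 : ℝ) < m := by exact_mod_cast hm
        exact this.ne'
      simp [this]
  have h4 := h2.comp h3
  refine h4.congr' ?_
  filter_upwards [eventually_ge_atTop 1] with m hm
  have : (m : ℝ) ≠ 0 := by
    have : (0 : ℝ) < m := by exact_mod_cast hm
    exact this.ne'
  simp only [Function.comp, zero_add, Real.exp_zero, smul_eq_mul]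
  field_simp
  ring

/-- the limit of the coefficients -/
theorem sm_lim {κ c x : ℝ} (hκ : κ < 1) (hc : 0 < c) (hx : 0 < x) :
    Tendsto (fun B : ℕ => (B : ℝ) * smI ((1 - κ) / (2 * B)) c ⌊x * B⌋₊) atTop
      (𝓝 ((1 - κ) / 2 * G c ((1 - κ) / 2 * x))) := by
  set m : ℕ → ℕ := fun B => ⌊x * B⌋₊ with hm
  have hmtop : Tendsto m atTop atTop := LG.floor_top x hx
  have hmdiv : Tendsto (fun B : ℕ => (m B : ℝ) / B) atTop (𝓝 x) := LG.floor_div_lim x hx.le
  -- upper end point
  set b : ℕ → ℝ := fun B => (m B : ℝ) * ((1 - κ) / (2 * B)) with hb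
  set a : ℕ → ℝ := fun B => (m B : ℝ) * ((1 - κ) / (2 * B)) * Real.exp (-1 / (m B : ℝ)) with ha
  have hblim : Tendsto b atTop (𝓝 ((1 - κ) / 2 * x)) := by
    have h1 := hmdiv.const_mul ((1 - κ) / 2)
    refine h1.congr (fun B => ?_)
    simp only [hb]
    rcases Nat.eq_zero_or_pos B with h0 | h0
    · rw [h0]; simp
    · have : (B : ℝ) ≠ 0 := by
        have : (0 : ℝ) < B := by exact_mod_cast h0
        exact this.ne'
      field_simp
  have helim : Tendsto (fun B : ℕ => Real.exp (-1 / (m B : ℝ))) atTop (𝓝 1) := by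
    have h1 : Tendsto (fun B : ℕ => -1 / (m B : ℝ)) atTop (𝓝 0) :=
      (tendsto_const_div_atTop_nhds_zero_nat (-1)).comp hmtop
    have h2 := (Real.continuous_exp.tendsto 0).comp h1
    rw [Real.exp_zero] at h2
    exact h2
  have halim : Tendsto a atTop (𝓝 ((1 - κ) / 2 * x)) := by
    have h1 := hblim.mul helim
    simpa using h1
  have hlen : Tendsto (fun B : ℕ => (B : ℝ) * (b B - a B)) atTop (𝓝 ((1 - κ) / 2)) := by
    have h1 := (exp_lim.comp hmtop).const_mul ((1 - κ) / 2)
    rw [mul_one] at h1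
    refine h1.congr' ?_
    filter_upwards [eventually_ge_atTop 1] with B hB
    have : (B : ℝ) ≠ 0 := by
      have : (0 : ℝ) < B := by exact_mod_cast hB
      exact this.ne'
    simp only [hb, ha, Function.comp]
    field_simp
  have hstrict := (Ph_strict c ((1 - κ) / 2 * x)).isLittleO
  have hpair : Tendsto (fun B : ℕ => (b B, a B)) atTop
      (𝓝 ((1 - κ) / 2 * x, (1 - κ) / 2 * x)) := hblim.prodMk_nhds halim
  have ho := hstrict.comp_tendsto hpair
  have ho2 := (Asymptotics.isBigO_refl (fun B : ℕ => (B : ℝ)) atTop).mul_isLittleO ho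
  have hO : (fun B : ℕ => (B : ℝ) * (b B - a B)) =O[atTop] (fun _ => (1 : ℝ)) := hlen.isBigO_one ℝ
  have ho3 := (Asymptotics.isLittleO_one_iff ℝ).1 (ho2.trans_isBigO hO)
  have hfin := ho3.add (hlen.mul_const (G c ((1 - κ) / 2 * x)))
  rw [zero_add] at hfin
  refine hfin.congr' ?_
  filter_upwards [eventually_ge_atTop 1, hmtop.eventually_ge_atTop 1] with B hB hmB
  have hB0 : (0 : ℝ) < B := by exact_mod_cast hB
  have hw : 0 < (1 - κ) / (2 * (B : ℝ)) := by
    apply div_pos (by linarith) (by linarith)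
  have h1 := smI_eq hw hc hmB
  have h2 : smI ((1 - κ) / (2 * (B : ℝ))) c ⌊x * (B : ℝ)⌋₊ = Ph c (b B) - Ph c (a B) := by
    rw [← Ph_sub]
    exact h1
  rw [h2]
  simp only [Function.comp, ContinuousLinearMap.toSpanSingleton_apply, smul_eq_mul]
  ring

/-- the coefficients of the Riemann sum -/
noncomputable def aa (κ c : ℝ) (B n : ℕ) : ℝ :=
  if 2 ≤ n ∧ n ≤ B then smI ((1 - κ) / (2 * B)) c n * (R (B + 1 - n) / R (B + 1)) else 0

noncomputable def gg (κ c x : ℝ) : ℝ :=
  (1 - κ) / 2 * G c ((1 - κ) / 2 * x) * max (1 - x) 0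

theorem ratio_lim {x : ℝ} (hx : 0 < x) (hx1 : x < 1) :
    Tendsto (fun B : ℕ => R (B + 1 - ⌊x * B⌋₊) / R (B + 1)) atTop (𝓝 (1 - x)) := by
  have hmdiv : Tendsto (fun B : ℕ => (⌊x * B⌋₊ : ℝ) / B) atTop (𝓝 x) := LG.floor_div_lim x hx.le
  have hle : ∀ B : ℕ, ⌊x * (B : ℝ)⌋₊ ≤ B := by
    intro B
    have h1 : x * (B : ℝ) ≤ B := by
      have : (0 : ℝ) ≤ B := Nat.cast_nonneg B
      nlinarith
    exact Nat.floor_le_of_le h1
  have hcast : ∀ B : ℕ, ((B + 1 - ⌊x * (B : ℝ)⌋₊ : ℕ) : ℝ) = (B : ℝ) + 1 - ⌊x * (B : ℝ)⌋₊ := by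
    intro B
    rw [Nat.cast_sub ((hle B).trans (Nat.le_succ B))]
    push_cast
    ring
  have hfrac : Tendsto (fun B : ℕ => ((B + 1 - ⌊x * (B : ℝ)⌋₊ : ℕ) : ℝ) / ((B + 1 : ℕ) : ℝ)) atTop
      (𝓝 (1 - x)) := by
    have h1 : Tendsto (fun B : ℕ => 1 - ((⌊x * B⌋₊ : ℝ) / B) * ((B : ℝ) / ((B : ℝ) + 1))) atTop
        (𝓝 (1 - x * 1)) := by
      refine (hmdiv.mul ?_).const_sub 1
      exact tendsto_natCast_div_add_atTop (1 : ℝ)
    rw [mul_one] at h1
    refine h1.congr' ?_
    filter_upwards [eventually_ge_atTop 1] with B hB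
    have hB0 : (0 : ℝ) < B := by exact_mod_cast hB
    rw [hcast]
    push_cast
    field_simp
  have htop : Tendsto (fun B : ℕ => B + 1 - ⌊x * (B : ℝ)⌋₊) atTop atTop := by
    have h1 : Tendsto (fun B : ℕ => ((B + 1 - ⌊x * (B : ℝ)⌋₊ : ℕ) : ℝ)) atTop atTop := by
      have h2 : Tendsto (fun B : ℕ => (1 - x) * (B : ℝ)) atTop atTop :=
        Tendsto.const_mul_atTop (by linarith) tendsto_natCast_atTop_atTop
      refine tendsto_atTop_mono (fun B => ?_) h2
      rw [hcast]
      have h3 := Nat.floor_le (show 0 ≤ x * (B : ℝ) by positivity)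
      nlinarith
    exact tendsto_natCast_atTop_iff.1 h1
  have hnum := R_lim.comp htop
  have hden := R_lim.comp (tendsto_add_atTop_nat 1)
  have hexp : Real.exp (-1) ≠ 0 := (Real.exp_pos _).ne'
  have h1 := (hnum.div hden hexp).mul hfrac
  rw [div_self hexp, one_mul] at h1
  refine h1.congr' ?_
  filter_upwards [htop.eventually_ge_atTop 1] with B hB
  have h2 : ((B + 1 - ⌊x * (B : ℝ)⌋₊ : ℕ) : ℝ) ≠ 0 := by
    have : (0 : ℝ) < ((B + 1 - ⌊x * (B : ℝ)⌋₊ : ℕ) : ℝ) := by exact_mod_cast hB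
    exact this.ne'
  have h3 : ((B + 1 : ℕ) : ℝ) ≠ 0 := by positivity
  have h4 : R (B + 1) ≠ 0 := (R_pos B).ne'
  simp only [Function.comp, Pi.div_apply]
  field_simp

theorem aa_lim {κ c : ℝ} (hκ : κ < 1) (hc : 0 < c) :
    Tendsto (fun B : ℕ => ∑ n ∈ Finset.range (B + 1), aa κ c B n) atTop
      (𝓝 (∫ x in (0 : ℝ)..2, gg κ c x)) := by
  have hpc : 0 < Real.pi * c := mul_pos Real.pi_pos hc
  refine LG.riem (aa κ c) (gg κ c) (Real.pi * c * ((1 - κ) / 2)) {1} (countable_singleton 1)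
    ?_ ?_ ?_
  · intro B n
    unfold aa
    have hC : 0 ≤ Real.pi * c * ((1 - κ) / 2) := by
      have : 0 < 1 - κ := by linarith
      positivity
    split_ifs with h
    · have hB0 : (0 : ℝ) < B := by
        have : 0 < B := by omega
        exact_mod_cast this
      have hw : 0 < (1 - κ) / (2 * (B : ℝ)) := by
        apply div_pos (by linarith) (by linarith)
      have h1 := smI_bd hw hc (show 1 ≤ n by omega)
      have h2 : 0 ≤ R (B + 1 - n) / R (B + 1) := div_nonneg (R_nonneg _) (R_nonneg _)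
      have h3 : R (B + 1 - n) / R (B + 1) ≤ 1 := by
        rw [div_le_one (R_pos B)]
        exact R_mono (by omega)
      rw [abs_mul, abs_mul, abs_of_pos hB0, abs_of_nonneg h2]
      calc (B : ℝ) * (|smI ((1 - κ) / (2 * (B : ℝ))) c n| * (R (B + 1 - n) / R (B + 1)))
          ≤ (B : ℝ) * ((Real.pi * c * ((1 - κ) / (2 * (B : ℝ)))) * 1) := by
            refine mul_le_mul_of_nonneg_left ?_ hB0.le
            exact mul_le_mul h1 h3 h2 (by positivity)
        _ = Real.pi * c * ((1 - κ) / 2) := by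
            field_simp
    · rw [mul_zero, abs_zero]
      exact hC
  · intro B n hn
    unfold aa
    rw [if_neg (by omega)]
  · intro x hx hx1
    rw [mem_singleton_iff] at hx1
    rcases lt_or_gt_of_ne hx1 with hlt | hgt
    · have h1 := (sm_lim hκ hc hx).mul (ratio_lim hx hlt)
      have h2 : gg κ c x = (1 - κ) / 2 * G c ((1 - κ) / 2 * x) * (1 - x) := by
        unfold gg
        rw [max_eq_left (by linarith)]
      rw [h2]
      refine h1.congr' ?_
      filter_upwards [(LG.floor_top x hx).eventually_ge_atTop 2] with B hB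
      have h3 : ⌊x * (B : ℝ)⌋₊ ≤ B := by
        have h4 : x * (B : ℝ) ≤ B := by
          have : (0 : ℝ) ≤ B := Nat.cast_nonneg B
          nlinarith
        exact Nat.floor_le_of_le h4
      unfold aa
      rw [if_pos ⟨hB, h3⟩]
      ring
    · have h2 : gg κ c x = 0 := by
        unfold gg
        rw [max_eq_right (by linarith), mul_zero]
      rw [h2]
      refine tendsto_const_nhds.congr' ?_
      have h3 : Tendsto (fun B : ℕ => (x - 1) * (B : ℝ)) atTop atTop :=
        Tendsto.const_mul_atTop (by linarith) tendsto_natCast_atTop_atTop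
      filter_upwards [h3.eventually_ge_atTop 1] with B hB
      unfold aa
      rw [if_neg, mul_zero]
      rintro ⟨_, h4⟩
      have h5 : (B : ℝ) + 1 ≤ x * B := by linarith
      have h6 : B + 1 ≤ ⌊x * (B : ℝ)⌋₊ := by
        refine Nat.le_floor ?_
        push_cast
        exact h5
      omega

noncomputable def KK (c κ : ℝ) : ℝ :=
  ∫ v in (0 : ℝ)..1, (1 - κ) / 2 * (Real.pi * c * Real.sinc (Real.pi * c * ((1 - κ) / 2 * v))) *
    (1 - v)

theorem gg_int (κ c : ℝ) : ∫ x in (0 : ℝ)..2, gg κ c x = KK c κ := by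
  have hcont : Continuous (gg κ c) := by
    unfold gg
    exact (continuous_const.mul ((G_cont c).comp (continuous_const.mul continuous_id))).mul
      ((continuous_const.sub continuous_id).max continuous_const)
  rw [← intervalIntegral.integral_add_adjacent_intervals (b := (1 : ℝ))
    (hcont.intervalIntegrable _ _) (hcont.intervalIntegrable _ _)]
  have h1 : ∫ x in (1 : ℝ)..2, gg κ c x = 0 := by
    have h2 : ∫ x in (1 : ℝ)..2, gg κ c x = ∫ x in (1 : ℝ)..2, (0 : ℝ) := by
      refine intervalIntegral.integral_congr ?_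
      intro x hx
      rw [uIcc_of_le (by norm_num)] at hx
      unfold gg
      simp only
      rw [max_eq_right (by linarith [hx.1]), mul_zero]
    rw [h2]
    simp
  rw [h1, add_zero]
  unfold KK
  refine intervalIntegral.integral_congr ?_
  intro x hx
  rw [uIcc_of_le (by norm_num)] at hx
  unfold gg G
  simp only
  rw [max_eq_left (by linarith [hx.2])]

theorem KK_cont (c : ℝ) : Continuous (KK c) := by
  unfold KK
  refine intervalIntegral.continuous_parametric_intervalIntegral_of_continuous' ?_ 0 1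
  have := Real.continuous_sinc
  simp only [Function.uncurry_def]
  fun_prop

theorem KK_zero (c : ℝ) : 4 / Real.pi * KK c 0 = lam1 c := by
  unfold KK lam1
  congr 1
  refine intervalIntegral.integral_congr ?_
  intro v _
  simp only
  have h1 : Real.pi * c * ((1 - 0) / 2 * v) = Real.pi * c / 2 * v := by ring
  rw [h1]
  ring

theorem exists_kappa {c x : ℝ} (h : x < lam1 c) :
    ∃ κ : ℝ, 0 < κ ∧ κ < 1 / 2 ∧ x < 4 / Real.pi * KK c κ := by
  have h1 : Tendsto (fun κ => 4 / Real.pi * KK c κ) (𝓝[>] 0) (𝓝 (lam1 c)) := by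
    rw [← KK_zero]
    exact (((KK_cont c).const_mul (4 / Real.pi)).tendsto 0).mono_left nhdsWithin_le_nhds
  have h2 := h1.eventually (eventually_gt_nhds h)
  have h3 : ∀ᶠ κ in 𝓝[>] (0 : ℝ), κ < 1 / 2 :=
    (eventually_lt_nhds (by norm_num : (0 : ℝ) < 1 / 2)).filter_mono nhdsWithin_le_nhds
  have h4 : ∀ᶠ κ in 𝓝[>] (0 : ℝ), 0 < κ := eventually_mem_nhdsWithin
  obtain ⟨κ, h5, h6, h7⟩ := (h2.and (h3.and h4)).exists
  exact ⟨κ, h7, h6, h5⟩

end I1

open I1 in
theorem IDEAL1_proof : IDEAL1 := by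
  intro c x hc hx
  obtain ⟨κ, hκ0, hκ1, hκx⟩ := exists_kappa hx
  have hlim := (aa_lim (show κ < 1 by linarith) hc).const_mul (4 / Real.pi)
  rw [gg_int] at hlim
  have hev := hlim.eventually (eventually_gt_nhds hκx)
  obtain ⟨B, hB1, hB⟩ := ((eventually_ge_atTop 1).and hev).exists
  refine ⟨κ, B, hκ0, hκ1, hB1, ?_⟩
  intro q hq
  have hq' : IsQ B t1 q := by
    have h1 : (fun m : ℕ => if 2 ≤ m then (1 : ℝ) ^ 2 * (fun _ : ℕ => (1 : ℝ)) m ^ 2 else 0) = t1 := by
      funext m
      unfold t1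
      split_ifs <;> norm_num
    rwa [h1] at hq
  have hSF : SF B (fun _ => 1) q = R (B + 1) := by
    unfold SF R
    refine Finset.sum_congr rfl (fun n hn => ?_)
    rw [Finset.mem_range] at hn
    rw [q_eq hq' n (by omega)]
    norm_num
  have hSM : ∀ m, SM B (fun _ => 1) q m = R (B + 1 - m) := by
    intro m
    unfold SM R
    refine Finset.sum_congr rfl (fun n hn => ?_)
    rw [Finset.mem_range] at hn
    rw [q_eq hq' n (by omega)]
    norm_num
  rw [hSF]
  refine ⟨R_pos B, ?_⟩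
  have h1 : ∑ m ∈ Finset.Icc 2 B, (1 : ℝ) * (1 * smI ((1 - κ) / (2 * B)) c m *
      SM B (fun _ => 1) q m) = R (B + 1) * ∑ n ∈ Finset.range (B + 1), aa κ c B n := by
    rw [Finset.mul_sum]
    refine Finset.sum_subset_zero_on_sdiff ?_ ?_ ?_
    · intro m hm
      rw [Finset.mem_Icc] at hm
      rw [Finset.mem_range]
      omega
    · intro m hm
      rw [Finset.mem_sdiff, Finset.mem_range, Finset.mem_Icc] at hm
      unfold aa
      rw [if_neg (by omega), mul_zero]
    · intro m hm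
      rw [Finset.mem_Icc] at hm
      unfold aa
      rw [if_pos hm, hSM]
      have := (R_pos B).ne'
      field_simp
  have h2 : (4 : ℝ) * 1 / Real.pi = 4 / Real.pi := by ring
  rw [h1, h2]
  have h3 := R_pos B
  calc x * R (B + 1) < (4 / Real.pi * ∑ n ∈ Finset.range (B + 1), aa κ c B n) * R (B + 1) :=
        mul_lt_mul_of_pos_right hB h3
    _ = _ := by ring

end RGap
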